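import Mathlib
import Pool.Agent.H43.Gaps.Wiel

/-!
# Gaps of `R_j(m, n)` lie high: `k ∈ R_j(m, n)` for all `k` with `(n - 1) (k - 1) ≤ r`, `r ∈ R_j`
-/

set_option autoImplicit false

namespace Pool.Agent.H40.Gaps

open Pool.Agent.H43.Gaps

variable {m n : ℕ}

/-- From an orbit of a non-primitive array which returns to `j` for the first time at time `i`,
the array in which `{j}` is sent to `S_s` and every set containing `j` and another index is sent to
everything. -/
theorem mem_R_cut (hm : 3 ≤ m) (hn : 2 ≤ n) (A : (Fin m → Fin n) → ℝ) (hp : ¬ Primitive A)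
    (j : Fin n) {i r : ℕ} (hi : 1 ≤ i) (hji : j ∈ S A j i)
    (hfirst : ∀ t, 1 ≤ t → t < i → j ∉ S A j t) (hir : i ≤ r)
    (hr : IsLeast {k | 1 ≤ k ∧ S A j k = Set.univ} r) {s : ℕ} (hs : 1 ≤ s) (hsi : s ≤ i) :
    (if i = r then i - s + 1 else i - s + 2) ∈ R m n j := by
  classical
  obtain ⟨⟨hr1, hru⟩, hmin⟩ := hr
  have hne : ∀ k, 1 ≤ k → k < r → S A j k ≠ Set.univ := by
    intro k hk1 hk2 hk3
    have := hmin ⟨hk1, hk3⟩
    omega
  -- the new array
  set B : (Fin m → Fin n) → ℝ := fun x =>
    if ∀ l : Fin m, l.val ≠ 0 → x l = j then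
      (if ∀ l : Fin m, l.val = 0 → x l ∈ S A j s then 1 else 0)
    else if ∃ l : Fin m, l.val ≠ 0 ∧ x l = j then 1
    else if 0 < A x then 1 else 0 with hB
  have hm0 : 0 < m := by omega
  have hm1 : 1 < m := by omega
  have hm2 : 2 < m := by omega
  have hBsing : next B {j} = S A j s := by
    ext u
    constructor
    · rintro ⟨x, h0, h1, h2⟩
      have h3 : ∀ l : Fin m, l.val ≠ 0 → x l = j := h1
      simp only [hB] at h2
      rw [if_pos h3] at h2
      split_ifs at h2 with h4
      · rw [← h0 ⟨0, hm0⟩ rfl]
        exact h4 ⟨0, hm0⟩ rfl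
      · exact absurd h2 (lt_irrefl _)
    · intro hu
      refine ⟨fun l => if l.val = 0 then u else j, ?_, ?_, ?_⟩
      · intro l hl
        simp [hl]
      · intro l hl
        simp [hl]
      · simp only [hB]
        rw [if_pos, if_pos]
        · exact one_pos
        · intro l hl
          simp only [hl, if_true]
          exact hu
        · intro l hl
          simp [hl]
  have hBout : ∀ X : Set (Fin n), j ∉ X → next B X = next A X := by
    intro X hX
    ext u
    constructor
    · rintro ⟨x, h0, h1, h2⟩
      have h3 : ¬ ∀ l : Fin m, l.val ≠ 0 → x l = j := by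
        intro h
        have h5 := h1 ⟨1, hm1⟩ (by simp)
        rw [h ⟨1, hm1⟩ (by simp)] at h5
        exact hX h5
      have h4 : ¬ ∃ l : Fin m, l.val ≠ 0 ∧ x l = j := by
        rintro ⟨l, hl, hl'⟩
        have h5 := h1 l hl
        rw [hl'] at h5
        exact hX h5
      simp only [hB] at h2
      rw [if_neg h3, if_neg h4] at h2
      split_ifs at h2 with h5
      · exact ⟨x, h0, h1, h5⟩
      · exact absurd h2 (lt_irrefl _)
    · rintro ⟨x, h0, h1, h2⟩
      have h3 : ¬ ∀ l : Fin m, l.val ≠ 0 → x l = j := by
        intro h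
        have h5 := h1 ⟨1, hm1⟩ (by simp)
        rw [h ⟨1, hm1⟩ (by simp)] at h5
        exact hX h5
      have h4 : ¬ ∃ l : Fin m, l.val ≠ 0 ∧ x l = j := by
        rintro ⟨l, hl, hl'⟩
        have h5 := h1 l hl
        rw [hl'] at h5
        exact hX h5
      refine ⟨x, h0, h1, ?_⟩
      simp only [hB]
      rw [if_neg h3, if_neg h4, if_pos h2]
      exact one_pos
  have hBtwo : ∀ (X : Set (Fin n)) (a : Fin n), j ∈ X → a ∈ X → a ≠ j →
      next B X = Set.univ := by
    intro X a hjX haX haj
    apply Set.eq_univ_of_forall
    intro u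
    refine ⟨fun l => if l.val = 0 then u else if l.val = 1 then a else j, ?_, ?_, ?_⟩
    · intro l hl
      simp [hl]
    · intro l hl
      simp only [hl, if_false]
      split_ifs
      · exact haX
      · exact hjX
    · simp only [hB]
      rw [if_neg, if_pos]
      · exact one_pos
      · exact ⟨⟨2, hm2⟩, by simp, by simp⟩
      · intro h
        have := h ⟨1, hm1⟩ (by simp)
        simp at this
        exact haj this
  -- the orbit
  have horb : ∀ t, s + t ≤ i → S B j (t + 1) = S A j (s + t) := by
    intro t
    induction t with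
    | zero => intro _; exact hBsing
    | succ t ih =>
      intro ht
      show next B (S B j (t + 1)) = _
      rw [ih (by omega), hBout _ (hfirst (s + t) (by omega) (by omega))]
      rfl
  have hlast : S B j (i - s + 1) = S A j i := by
    rw [horb (i - s) (by omega)]
    congr 1
    omega
  -- periodicity
  have hper : S A j i ≠ {j} := by
    intro h
    have h1 : ∀ a, S A j (a * i) = {j} := by
      intro a
      induction a with
      | zero => rw [Nat.zero_mul]; rfl
      | succ a ih =>
        have h2 := S_mono_of_subset A (j := j) (j' := j) (a := a * i) (b := 0)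
          (by rw [ih]; exact subset_rfl) i
        have h3 := S_mono_of_subset A (j := j) (j' := j) (a := 0) (b := a * i)
          (by rw [ih]; exact subset_rfl) i
        rw [Nat.zero_add] at h2 h3
        rw [Nat.add_mul, Nat.one_mul]
        exact (Set.Subset.antisymm h2 h3).trans h
    have h2 : S A j (r * i) = Set.univ := S_univ_of_le A hr1 hru (Nat.le_mul_of_pos_right r hi)
    rw [h1 r] at h2
    have h3 : ∃ a : Fin n, a ≠ j := by
      haveI : Nontrivial (Fin n) := Fin.nontrivial_iff_two_le.2 hn
      exact exists_ne j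
    obtain ⟨a, ha⟩ := h3
    have h4 : a ∈ ({j} : Set (Fin n)) := by rw [h2]; trivial
    exact ha h4
  have hnp : ¬ Primitive B := by
    intro h
    apply hp
    intro w
    by_contra hw
    have hw' : ∀ k, 1 ≤ k → S A w k ≠ Set.univ := by
      intro k hk1 hk2
      exact hw ⟨k, hk1, hk2⟩
    -- the orbit of `w` never contains `j`
    have hav : ∀ k, j ∉ S A w k := by
      intro k hk
      have h1 := S_mono_of_subset A (j := j) (j' := w) (a := 0) (b := k)
        (Set.singleton_subset_iff.2 hk) r
      rw [Nat.zero_add, hru] at h1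
      exact hw' (k + r) (by omega) (Set.eq_univ_of_univ_subset h1)
    have hsame : ∀ k, S B w k = S A w k := by
      intro k
      induction k with
      | zero => rfl
      | succ k ih =>
        show next B (S B w k) = _
        rw [ih, hBout _ (hav k)]
        rfl
    obtain ⟨k, hk1, hk⟩ := h w
    rw [hsame] at hk
    exact hw' k hk1 hk
  refine ⟨B, fun x => by simp only [hB]; split_ifs <;> norm_num, hnp, ?_⟩
  have hprev : i - s = 0 ∨ S B j (i - s) ≠ Set.univ := by
    rcases Nat.eq_zero_or_pos (i - s) with h | h
    · exact Or.inl h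
    · right
      obtain ⟨t, ht⟩ : ∃ t, i - s = t + 1 := ⟨i - s - 1, by omega⟩
      rw [ht, horb t (by omega)]
      exact hne _ (by omega) (by omega)
  split_ifs with hcase
  · apply isLeast_of
    · rw [hlast, hcase, hru]
    · exact hprev
  · apply isLeast_of (g := i - s + 1)
    · show next B (S B j (i - s + 1)) = _
      rw [hlast]
      obtain ⟨a, ha, haj⟩ : ∃ a ∈ S A j i, a ≠ j := by
        by_contra hcon
        push Not at hcon
        apply hper
        ext x
        constructor
        · intro hx
          exact hcon x hx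
        · intro hx
          rw [Set.mem_singleton_iff] at hx
          rw [hx]
          exact hji
      exact hBtwo _ a hji ha haj
    · right
      rw [hlast]
      exact hne i hi (by omega)

/-- the orbit of `j` becomes everything within `n - 1` first return times -/
theorem le_mul_return (A : (Fin m → Fin n) → ℝ) (j : Fin n) {i r : ℕ} (hi : 1 ≤ i)
    (hji : j ∈ S A j i) (hr : IsLeast {k | 1 ≤ k ∧ S A j k = Set.univ} r) (hn : 2 ≤ n) :
    r ≤ (n - 1) * i := by
  classical
  obtain ⟨⟨hr1, hru⟩, hmin⟩ := hr
  by_contra hlt
  push Not at hlt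
  have hsub : ∀ t, S A j t ⊆ S A j (t + i) := by
    intro t
    have := S_mono_of_subset A (j := j) (j' := j) (a := 0) (b := i)
      (Set.singleton_subset_iff.2 hji) t
    rwa [Nat.zero_add, Nat.add_comm] at this
  have hcard : ∀ a, a ≤ n - 1 → a + 1 ≤ (S A j (a * i)).toFinset.card := by
    intro a
    induction a with
    | zero =>
      intro _
      have h : (S A j (0 * i)).toFinset = {j} := by
        ext x
        rw [Set.mem_toFinset, Nat.zero_mul, Finset.mem_singleton]
        exact Iff.rfl
      rw [h, Finset.card_singleton]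
    | succ a ih =>
      intro ha
      have h1 := ih (by omega)
      have h2 : S A j (a * i) ⊆ S A j ((a + 1) * i) := by
        rw [Nat.add_mul, Nat.one_mul]
        exact hsub _
      have h3 : S A j (a * i) ≠ S A j ((a + 1) * i) := by
        intro heq
        -- periodic from now on
        have h4 : ∀ b, S A j ((a + b) * i) = S A j (a * i) := by
          intro b
          induction b with
          | zero => rfl
          | succ b ihb =>
            have e1 := S_mono_of_subset A (j := j) (j' := j) (a := (a + b) * i) (b := a * i)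
              ihb.le i
            have e2 := S_mono_of_subset A (j := j) (j' := j) (a := a * i) (b := (a + b) * i)
              ihb.ge i
            have e3 : (a + b) * i + i = (a + (b + 1)) * i := by ring
            have e4 : a * i + i = (a + 1) * i := by ring
            rw [e3, e4, ← heq] at e1
            rw [e3, e4, ← heq] at e2
            exact Set.Subset.antisymm e1 e2
        have h5 : S A j ((a + r) * i) = Set.univ := by
          apply S_univ_of_le A hr1 hru
          calc r ≤ a + r := Nat.le_add_left _ _
            _ ≤ (a + r) * i := Nat.le_mul_of_pos_right _ hi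
        rw [h4 r] at h5
        have h6 : a * i < r := by
          calc a * i ≤ (n - 1) * i := Nat.mul_le_mul_right i (by omega)
            _ < r := hlt
        rcases Nat.eq_zero_or_pos (a * i) with h7 | h7
        · rw [h7] at h5
          have h8 : ∃ x : Fin n, x ≠ j := by
            haveI : Nontrivial (Fin n) := Fin.nontrivial_iff_two_le.2 hn
            exact exists_ne j
          obtain ⟨x, hx⟩ := h8
          have h9 : x ∈ S A j 0 := by rw [h5]; trivial
          exact hx h9
        · have := hmin ⟨h7, h5⟩
          omega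
      have h4 : (S A j (a * i)).toFinset ⊂ (S A j ((a + 1) * i)).toFinset := by
        rw [Set.toFinset_ssubset_toFinset]
        exact Set.ssubset_iff_subset_ne.2 ⟨h2, h3⟩
      have := Finset.card_lt_card h4
      omega
  have h1 := hcard (n - 1) le_rfl
  have h2 : (S A j ((n - 1) * i)).toFinset = Finset.univ := by
    apply Finset.eq_univ_of_card
    rw [Fintype.card_fin]
    have := Finset.card_le_univ (S A j ((n - 1) * i)).toFinset
    rw [Fintype.card_fin] at this
    omega
  have h3 : S A j ((n - 1) * i) = Set.univ := by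
    ext x
    constructor
    · intro _; trivial
    · intro _
      rw [← Set.mem_toFinset, h2]
      exact Finset.mem_univ _
  have h4 : 1 ≤ (n - 1) * i := Nat.mul_pos (by omega) hi
  have := hmin ⟨h4, h3⟩
  omega

/-- **All gaps lie high.** For `m ≥ 3`, if `r ∈ R_j(m, n)` then every `k` with `1 ≤ k ≤ r` and
`(n - 1) (k - 1) ≤ r` belongs to `R_j(m, n)`. -/
theorem mem_R_low (hm : 3 ≤ m) (hn : 2 ≤ n) (j : Fin n) {r : ℕ} (hr : r ∈ R m n j) {k : ℕ}
    (hk1 : 1 ≤ k) (hkr : k ≤ r) (hk : (n - 1) * (k - 1) ≤ r) : k ∈ R m n j := by
  classical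
  rcases Nat.lt_or_ge k 2 with hk2 | hk2
  · apply mem_R_of_le_sq hm hn j hk1
    have h4 : 1 ^ 2 ≤ (n - 1) ^ 2 := Nat.pow_le_pow_left (by omega) 2
    omega
  obtain ⟨A, -, hp, hleast⟩ := hr
  have hex : ∃ t, 1 ≤ t ∧ j ∈ S A j t := ⟨r, hleast.1.1, by rw [hleast.1.2]; trivial⟩
  obtain ⟨hi1, hji⟩ := Nat.find_spec hex
  have hfirst : ∀ t, 1 ≤ t → t < Nat.find hex → j ∉ S A j t := by
    intro t ht htl hj
    exact Nat.find_min hex htl ⟨ht, hj⟩
  have hir : Nat.find hex ≤ r := Nat.find_min' hex ⟨hleast.1.1, by rw [hleast.1.2]; trivial⟩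
  have hmul := le_mul_return A j hi1 hji hleast hn
  set i := Nat.find hex with hi
  have hki : k - 1 ≤ i := by
    have : (n - 1) * (k - 1) ≤ (n - 1) * i := hk.trans hmul
    exact Nat.le_of_mul_le_mul_left this (by omega)
  by_cases hcase : i = r
  · have h1 := mem_R_cut hm hn A hp j hi1 hji hfirst hir hleast (s := i - k + 1) (by omega)
      (by omega)
    rw [if_pos hcase] at h1
    have e : i - (i - k + 1) + 1 = k := by omega
    rwa [e] at h1
  · have h1 := mem_R_cut hm hn A hp j hi1 hji hfirst hir hleast (s := i + 2 - k) (by omega)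
      (by omega)
    rw [if_neg hcase] at h1
    have e : i - (i + 2 - k) + 2 = k := by omega
    rwa [e] at h1

end Pool.Agent.H40.Gaps
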