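import Pool.Agent.H40.Gaps.Grow
import Pool.Agent.H40.Gaps.Struct

/-!
# `R_j(m, n)` contains all numbers up to `c ^ n`, for every `c < 2`, `m ≥ 3` and large `n`
-/

set_option autoImplicit false

namespace Pool.Agent.H40.Gaps

open Pool.Agent.H43.Gaps Filter Topology

/-- a block length for which the base of the counter is larger than `c ^ (2 b)` -/
theorem exists_block {c : ℝ} (h1 : 1 ≤ c) (h2 : c < 2) :
    ∃ b K : ℕ, 1 ≤ b ∧ 1 ≤ K ∧ K + 1 ≤ (2 * b).choose b ∧ c ^ (2 * b) < K := by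
  have hr : c ^ 2 / 4 < 1 := by nlinarith
  have hr0 : 0 ≤ c ^ 2 / 4 := by positivity
  have t1 := tendsto_self_mul_const_pow_of_lt_one hr0 hr
  have t2 := tendsto_self_mul_const_pow_of_lt_one (r := (1 / 4 : ℝ)) (by norm_num) (by norm_num)
  have e1 := t1.eventually (gt_mem_nhds (show (0 : ℝ) < 1 / 4 by norm_num))
  have e2 := t2.eventually (gt_mem_nhds (show (0 : ℝ) < 1 / 4 by norm_num))
  obtain ⟨b, h3, h4, hb⟩ := (e1.and (e2.and (eventually_ge_atTop 1))).exists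
  have hb0 : (0 : ℝ) < b := by exact_mod_cast hb
  have h5 : (4 : ℝ) ^ b ≤ 2 * b * Nat.centralBinom b := by
    exact_mod_cast Nat.four_pow_le_two_mul_self_mul_centralBinom b (by omega)
  have h4b : (0 : ℝ) < 4 ^ b := by positivity
  have h6 : (c ^ 2) ^ b + 1 < Nat.centralBinom b := by
    have e3 : (b : ℝ) * (c ^ 2) ^ b < 1 / 4 * 4 ^ b := by
      have : (b : ℝ) * (c ^ 2 / 4) ^ b * 4 ^ b = b * (c ^ 2) ^ b := by
        rw [div_pow]
        field_simp
      rw [← this]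
      exact mul_lt_mul_of_pos_right h3 h4b
    have e4 : (b : ℝ) < 1 / 4 * 4 ^ b := by
      have : (b : ℝ) * (1 / 4) ^ b * 4 ^ b = b := by
        rw [div_pow, one_pow]
        field_simp
      calc (b : ℝ) = (b : ℝ) * (1 / 4) ^ b * 4 ^ b := this.symm
        _ < 1 / 4 * 4 ^ b := mul_lt_mul_of_pos_right h4 h4b
    have e5 : 2 * b * ((c ^ 2) ^ b + 1) < 2 * b * Nat.centralBinom b := by nlinarith
    exact lt_of_mul_lt_mul_left e5 (by positivity)
  have h7 : 1 ≤ (c ^ 2) ^ b := one_le_pow₀ (by nlinarith)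
  have h8 : (2 : ℝ) < Nat.centralBinom b := by linarith
  have h9 : 2 < Nat.centralBinom b := by exact_mod_cast h8
  refine ⟨b, Nat.centralBinom b - 1, hb, by omega, ?_, ?_⟩
  · rw [← Nat.centralBinom_eq_two_mul_choose]
    omega
  · rw [pow_mul, Nat.cast_sub (by omega), Nat.cast_one]
    linarith

theorem growth_one {c : ℝ} (h1 : 1 ≤ c) (h2 : c < 2) : ∃ N : ℕ, ∀ n, N ≤ n → ∀ m, 3 ≤ m →
    ∀ (j : Fin n) (k : ℕ), 1 ≤ k → (k : ℝ) ≤ c ^ n → k ∈ R m n j := by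
  obtain ⟨b, K, hb, hK, hKb, hcK⟩ := exists_block h1 h2
  have hc0 : 0 < c := by linarith
  have hK0 : (0 : ℝ) < K := by exact_mod_cast hK
  set q : ℝ := c ^ (2 * b) / K with hq
  have hq0 : 0 ≤ q := by positivity
  have hq1 : q < 1 := (div_lt_one hK0).2 hcK
  set C0 : ℕ := b * 4 ^ b + 3 + 2 * b with hC0
  have hCpos : 0 < c ^ C0 := by positivity
  have t1 := tendsto_pow_atTop_nhds_zero_of_lt_one hq0 hq1
  have e1 := t1.eventually (gt_mem_nhds (show (0 : ℝ) < 1 / c ^ C0 by positivity))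
  obtain ⟨L0, hL0⟩ := e1.exists_forall_of_atTop
  refine ⟨C0 + 2 * b * (L0 + 1), ?_⟩
  intro n hn m hm j k hk1 hk
  have hn2 : 2 ≤ n := by
    have : 3 ≤ C0 := by omega
    omega
  rcases Nat.lt_or_ge k 2 with hk2 | hk2
  · apply mem_R_of_le_sq hm hn2 j hk1
    have h4 : 1 ^ 2 ≤ (n - 1) ^ 2 := Nat.pow_le_pow_left (by omega) 2
    omega
  obtain ⟨d, hd⟩ : ∃ d, n = b * 4 ^ b + 3 + d := ⟨n - (b * 4 ^ b + 3), by omega⟩
  set L := d / (2 * b) with hLdef
  have hdiv := Nat.div_add_mod d (2 * b)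
  have hmod := Nat.mod_lt d (show 0 < 2 * b by omega)
  rw [← hLdef] at hdiv
  have hLL0 : L0 + 1 ≤ L := by
    rw [hLdef, Nat.le_div_iff_mul_le (by omega)]
    have : (L0 + 1) * (2 * b) = 2 * b * (L0 + 1) := Nat.mul_comm _ _
    omega
  have hnL : n ≤ C0 + 2 * b * L := by omega
  have hcn : c ^ n ≤ (K : ℝ) ^ L := by
    calc c ^ n ≤ c ^ (C0 + 2 * b * L) := pow_le_pow_right₀ h1 hnL
      _ = c ^ C0 * (c ^ (2 * b)) ^ L := by rw [pow_add, pow_mul]
      _ = c ^ C0 * (q ^ L * (K : ℝ) ^ L) := by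
        rw [← mul_pow, hq, div_mul_cancel₀ _ hK0.ne']
      _ = (c ^ C0 * q ^ L) * (K : ℝ) ^ L := by ring
      _ ≤ 1 * (K : ℝ) ^ L := by
        apply mul_le_mul_of_nonneg_right _ (by positivity)
        have := (hL0 L (by omega)).le
        rw [le_div_iff₀ hCpos] at this
        rw [mul_comm]
        exact this
      _ = (K : ℝ) ^ L := one_mul _
  have hkK : k ≤ K ^ L := by
    have : (k : ℝ) ≤ (K : ℝ) ^ L := hk.trans hcn
    exact_mod_cast this
  apply mem_R_machine (L := L) (b := b) (K := K) (by omega) hb hK hKb hm (by omega) j hk2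
  calc k ≤ K ^ L := hkK
    _ ≤ K ^ (L + b - 1) := Nat.pow_le_pow_right hK (by omega)
    _ ≤ (L + b) * K ^ (L + b - 1) := Nat.le_mul_of_pos_left _ (by omega)
    _ ≤ (L + b) * K ^ (L + b - 1) + 1 := Nat.le_succ _

/-- For every `c < 2` there is `N` such that for all `n ≥ N` and all `m ≥ 3` every `k ≤ c ^ n`
belongs to `R_j(m, n)`. -/
theorem growth {c : ℝ} (h0 : 0 ≤ c) (h2 : c < 2) : ∃ N : ℕ, ∀ n, N ≤ n → ∀ m, 3 ≤ m →
    ∀ (j : Fin n) (k : ℕ), 1 ≤ k → (k : ℝ) ≤ c ^ n → k ∈ R m n j := by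
  obtain ⟨N, hN⟩ := growth_one (c := max c 1) (le_max_right _ _) (max_lt h2 (by norm_num))
  refine ⟨N, fun n hn m hm j k hk1 hk => hN n hn m hm j k hk1 (hk.trans ?_)⟩
  exact pow_le_pow_left₀ h0 (le_max_left _ _) n

end Pool.Agent.H40.Gaps
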