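import Mathlib
import Pool.Agent.H43.Gaps.Wiel

/-!
# `R_j(m, n)` contains all numbers up to `c ^ n`, for every `c < 2`, `m ≥ 3` and large `n`

A rotating counter: the items (digits in base `K` and a marker) move around a ring; they are coded
by `b`-subsets of a set with `2 b` elements; in a pipeline of `b` stages the subsets of size
`≤ r + 1` of the code word are computed (unions of two sets), and the last stage is combined with
the carry.
-/

set_option autoImplicit false

namespace Pool.Agent.H40.Gaps

open Pool.Agent.H43.Gaps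

/-! ### Systems of rules with two premises -/

section rules

variable {V : Type} (rule : V → V → V → Prop)

/-- one step -/
def FF (X : Set V) : Set V := {u | ∃ a ∈ X, ∃ c ∈ X, rule a c u}

theorem mem_R_rules [Fintype V] (st w : V) (X : ℕ → Set V) (T : ℕ)
    (h0 : FF rule {st} = X 0) (h1 : ∀ t, t < T → FF rule (X t) = X (t + 1))
    (h2 : ∀ t, t ≤ T → X t ≠ Set.univ) (h3 : FF rule (X T) = Set.univ)
    (hw : FF rule {w} = ∅) {m n : ℕ} (hm : 3 ≤ m) (hn : Fintype.card V = n) (j : Fin n) :
    T + 2 ∈ R m n j := by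
  classical
  apply R_mono_order (m := 3) (by norm_num) hm
  let e : V ≃ Fin n := Fintype.equivFinOfCardEq hn
  rw [R_indep j (e st)]
  let A : (Fin 3 → Fin n) → ℝ := fun x =>
    if rule (e.symm (x 1)) (e.symm (x 2)) (e.symm (x 0)) then 1 else 0
  have key : ∀ Y : Set V, next A (e '' Y) = e '' (FF rule Y) := by
    intro Y
    ext u
    constructor
    · rintro ⟨x, g0, g1, g2⟩
      have g3 : rule (e.symm (x 1)) (e.symm (x 2)) (e.symm (x 0)) := by
        by_contra hcon
        simp only [A, if_neg hcon] at g2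
        exact absurd g2 (lt_irrefl _)
      obtain ⟨a, ha, ha'⟩ := g1 1 (by decide)
      obtain ⟨c, hc, hc'⟩ := g1 2 (by decide)
      have g4 := g0 0 rfl
      refine ⟨e.symm u, ⟨a, ha, c, hc, ?_⟩, e.apply_symm_apply u⟩
      rw [← ha', ← hc', e.symm_apply_apply, e.symm_apply_apply, g4] at g3
      exact g3
    · rintro ⟨v, ⟨a, ha, c, hc, hr⟩, rfl⟩
      refine ⟨![e v, e a, e c], ?_, ?_, ?_⟩
      · intro l hl
        have : l = 0 := Fin.ext hl
        rw [this]
        rfl
      · intro l hl
        fin_cases l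
        · exact absurd rfl hl
        · exact ⟨a, ha, rfl⟩
        · exact ⟨c, hc, rfl⟩
      · have : rule (e.symm (![e v, e a, e c] 1)) (e.symm (![e v, e a, e c] 2))
            (e.symm (![e v, e a, e c] 0)) := by
          simpa using hr
        simp only [A, if_pos this]
        exact one_pos
  have horb : ∀ t, t ≤ T → S A (e st) (t + 1) = e '' X t := by
    intro t
    induction t with
    | zero =>
      intro _
      show next A {e st} = _
      rw [← Set.image_singleton, key, h0]
    | succ t ih =>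
      intro ht
      show next A (S A (e st) (t + 1)) = _
      rw [ih (by omega), key, h1 t (by omega)]
  refine ⟨A, fun x => by simp only [A]; split_ifs <;> norm_num, ?_, ?_⟩
  · intro h
    obtain ⟨k, hk1, hk⟩ := h (e w)
    have hemp : ∀ d, S A (e w) (1 + d) = ∅ := by
      intro d
      induction d with
      | zero =>
        show next A {e w} = ∅
        rw [← Set.image_singleton, key, hw, Set.image_empty]
      | succ d ih =>
        show next A (S A (e w) (1 + d)) = ∅
        rw [ih]
        ext u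
        simp only [Set.mem_empty_iff_false, iff_false]
        rintro ⟨x, -, g1, -⟩
        exact g1 1 (by decide)
    obtain ⟨d, rfl⟩ := Nat.exists_eq_add_of_le hk1
    rw [hemp d] at hk
    have : e w ∈ (∅ : Set (Fin n)) := by rw [hk]; trivial
    exact this
  · apply isLeast_of (g := T + 1)
    · show next A (S A (e st) (T + 1)) = _
      rw [horb T le_rfl, key, h3, Set.image_univ, e.range_eq_univ]
    · right
      rw [horb T le_rfl]
      intro h
      apply h2 T le_rfl
      apply Set.eq_univ_of_forall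
      intro v
      have h4 : e v ∈ e '' X T := by rw [h]; trivial
      obtain ⟨v', hv', h5⟩ := h4
      rw [← e.injective h5]
      exact hv'

end rules

/-! ### The counter -/

section counter

/-- the item which arrives at time `t`: a digit, or the marker `K` -/
def It (K M t : ℕ) : ℕ := if t % M = M - 1 then K else t / M / K ^ (t % M) % K

/-- the carry at time `t` -/
def Cy (K M t : ℕ) : Bool := decide (K ^ (t % M) ∣ t / M + 1)

/-- the new item -/
def gg (K x : ℕ) (q : Bool) : ℕ :=
  if x = K then K else if q then (if x + 1 = K then 0 else x + 1) else x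

/-- the new carry -/
def hh (K x : ℕ) (q : Bool) : Bool := if x = K then true else (q && decide (x + 1 = K))

theorem gg_le {K x : ℕ} (q : Bool) (hx : x ≤ K) : gg K x q ≤ K := by
  unfold gg
  split_ifs <;> omega

variable {K M : ℕ}

theorem It_le (hK : 1 ≤ K) (t : ℕ) : It K M t ≤ K := by
  unfold It
  split_ifs
  · exact le_rfl
  · exact (Nat.mod_lt _ hK).le

theorem It_eq_iff (hK : 1 ≤ K) (t : ℕ) : It K M t = K ↔ t % M = M - 1 := by
  unfold It
  split_ifs with h
  · exact ⟨fun _ => h, fun _ => rfl⟩
  · have := Nat.mod_lt (t / M / K ^ (t % M)) hK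
    exact ⟨fun h' => by omega, fun h' => absurd h' h⟩

theorem succ_mod' (hK : 1 ≤ K) (x : ℕ) :
    (x + 1) % K = if x % K + 1 = K then 0 else x % K + 1 := by
  have h1 := Nat.mod_lt x hK
  rw [Nat.add_mod]
  rcases Nat.lt_or_ge 1 K with h | h
  · rw [Nat.mod_eq_of_lt h]
    split_ifs with h2
    · rw [h2, Nat.mod_self]
    · exact Nat.mod_eq_of_lt (by omega)
  · have : K = 1 := by omega
    subst this
    simp [Nat.mod_one]

theorem It_add (hK : 1 ≤ K) (hM : 1 ≤ M) (t : ℕ) :
    It K M (t + M) = gg K (It K M t) (Cy K M t) := by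
  have e1 : (t + M) % M = t % M := Nat.add_mod_right _ _
  have e2 : (t + M) / M = t / M + 1 := Nat.add_div_right _ hM
  by_cases h : t % M = M - 1
  · have h1 : It K M t = K := (It_eq_iff hK t).2 h
    rw [h1]
    unfold It gg
    rw [e1, if_pos h, if_pos rfl]
  · have h1 : It K M t ≠ K := fun h' => h ((It_eq_iff hK t).1 h')
    have h2 : It K M t = t / M / K ^ (t % M) % K := by
      unfold It
      rw [if_neg h]
    have h3 : It K M (t + M) = (t / M + 1) / K ^ (t % M) % K := by
      unfold It
      rw [e1, e2, if_neg h]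
    rw [h3]
    unfold gg
    rw [if_neg h1, h2, Nat.succ_div]
    by_cases hd : K ^ (t % M) ∣ t / M + 1
    · have hq : Cy K M t = true := by
        unfold Cy
        exact decide_eq_true hd
      rw [if_pos hd, hq, if_pos rfl, succ_mod' hK]
    · have hq : Cy K M t = false := by
        unfold Cy
        exact decide_eq_false hd
      rw [if_neg hd, hq, add_zero]
      simp

theorem Cy_succ (hK : 1 ≤ K) (hM : 1 ≤ M) (t : ℕ) :
    Cy K M (t + 1) = hh K (It K M t) (Cy K M t) := by
  have hlt := Nat.mod_lt t hM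
  by_cases h : t % M = M - 1
  · have h1 : It K M t = K := (It_eq_iff hK t).2 h
    have h2 : (t + 1) % M = 0 := by
      rw [succ_mod' hM, if_pos (by omega)]
    rw [h1]
    unfold Cy hh
    rw [h2, if_pos rfl, pow_zero]
    exact decide_eq_true (one_dvd _)
  · have h1 : It K M t ≠ K := fun h' => h ((It_eq_iff hK t).1 h')
    have h2 : It K M t = t / M / K ^ (t % M) % K := by
      unfold It
      rw [if_neg h]
    have h3 : (t + 1) % M = t % M + 1 := by
      rw [succ_mod' hM, if_neg (by omega)]
    have h4 : (t + 1) / M = t / M := by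
      rw [Nat.succ_div, if_neg, add_zero]
      intro hd
      have := Nat.mod_eq_zero_of_dvd hd
      omega
    unfold hh
    rw [if_neg h1, h2]
    unfold Cy
    rw [h3, h4]
    have hpos : 0 < K ^ (t % M) := Nat.pow_pos hK
    rw [← Bool.decide_and]
    apply decide_eq_decide.2
    constructor
    · intro hd
      have hd1 : K ^ (t % M) ∣ t / M + 1 := dvd_trans (pow_dvd_pow K (Nat.le_succ _)) hd
      refine ⟨hd1, ?_⟩
      have h5 : K ∣ (t / M + 1) / K ^ (t % M) := by
        rw [Nat.dvd_div_iff_mul_dvd hd1, ← pow_succ]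
        exact hd
      rw [Nat.succ_div, if_pos hd1] at h5
      have h6 := Nat.mod_eq_zero_of_dvd h5
      rw [succ_mod' hK] at h6
      split_ifs at h6 with h7
      exact h7
    · rintro ⟨hd1, h7⟩
      have h5 : K ∣ (t / M + 1) / K ^ (t % M) := by
        rw [Nat.succ_div, if_pos hd1]
        apply Nat.dvd_of_mod_eq_zero
        rw [succ_mod' hK, if_pos h7]
      rw [Nat.dvd_div_iff_mul_dvd hd1, ← pow_succ] at h5
      exact h5

/-- no overflow before the end -/
theorem no_overflow (hK : 1 ≤ K) (hM : 1 ≤ M) {t : ℕ} (ht : t + 1 < M * K ^ (M - 1)) :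
    ¬ (It K M t = K ∧ Cy K M t = true) := by
  rintro ⟨h1, h2⟩
  have h3 := (It_eq_iff hK t).1 h1
  unfold Cy at h2
  have h4 := of_decide_eq_true h2
  rw [h3] at h4
  have h5 := Nat.le_of_dvd (Nat.succ_pos _) h4
  have h6 : M * K ^ (M - 1) ≤ M * (t / M + 1) := Nat.mul_le_mul_left M h5
  have h7 := Nat.div_add_mod t M
  rw [h3] at h7
  have h8 : M * (t / M + 1) = M * (t / M) + M := by ring
  omega

/-- overflow at the end -/
theorem overflow (hK : 1 ≤ K) (hM : 1 ≤ M) {t : ℕ} (ht : t + 1 = M * K ^ (M - 1)) :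
    It K M t = K ∧ Cy K M t = true := by
  have hpos : 0 < K ^ (M - 1) := Nat.pow_pos hK
  obtain ⟨P, hP⟩ : ∃ P, K ^ (M - 1) = P + 1 := ⟨K ^ (M - 1) - 1, by omega⟩
  rw [hP] at ht
  have h1 : t = M * P + (M - 1) := by
    have : M * (P + 1) = M * P + M := by ring
    omega
  have h2 : t % M = M - 1 := by
    rw [h1, Nat.mul_add_mod]
    exact Nat.mod_eq_of_lt (by omega)
  have h3 : t / M = P := by
    rw [h1, Nat.mul_add_div hM, Nat.div_eq_of_lt (by omega), add_zero]
  refine ⟨(It_eq_iff hK t).2 h2, ?_⟩
  unfold Cy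
  rw [h2, h3, hP]
  exact decide_eq_true dvd_rfl

end counter

/-! ### The machine -/

section machine

/-- the indices -/
abbrev VV (L b : ℕ) : Type :=
  Option (Bool ⊕ (Fin L × Fin (2 * b)) ⊕ (Fin b × Finset (Fin (2 * b))))

variable {L b : ℕ}

/-- the carry, the tape, the pipeline -/
abbrev cr (q : Bool) : VV L b := some (Sum.inl q)
abbrev tp (c : Fin L) (i : Fin (2 * b)) : VV L b := some (Sum.inr (Sum.inl (c, i)))
abbrev pp (r : Fin b) (P : Finset (Fin (2 * b))) : VV L b := some (Sum.inr (Sum.inr (r, P)))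

/-- the state at time `t` -/
def XX (L b K : ℕ) (w : ℕ → Finset (Fin (2 * b))) (t : ℕ) : Set (VV L b) := fun u =>
  match u with
  | none => False
  | some (Sum.inl q) => q = Cy K (L + b) t
  | some (Sum.inr (Sum.inl (c, i))) => i ∈ w (It K (L + b) (t + (L + b - 1 - c.val)))
  | some (Sum.inr (Sum.inr (r, P))) =>
    P.Nonempty ∧ P ⊆ w (It K (L + b) (t + (b - 1 - r.val))) ∧ P.card ≤ r.val + 1

/-- the rules -/
def rl (L b K : ℕ) (w : ℕ → Finset (Fin (2 * b))) (s : ℕ) (a c u : VV L b) : Prop :=
  (a = none ∧ u ∈ XX L b K w s) ∨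
  (∃ (c1 c2 : Fin L) (i : Fin (2 * b)), c2.val = c1.val + 1 ∧ a = tp c1 i ∧ u = tp c2 i) ∨
  (∃ (c1 : Fin L) (r : Fin b) (i : Fin (2 * b)), c1.val + 1 = L ∧ r.val = 0 ∧ a = tp c1 i ∧
    u = pp r {i}) ∨
  (∃ (r1 r2 : Fin b) (P1 P2 : Finset (Fin (2 * b))), r2.val = r1.val + 1 ∧
    (P1 ∪ P2).card ≤ r2.val + 1 ∧ a = pp r1 P1 ∧ c = pp r1 P2 ∧ u = pp r2 (P1 ∪ P2)) ∨
  (∃ (r : Fin b) (x : ℕ) (q : Bool), r.val + 1 = b ∧ x ≤ K ∧ a = pp r (w x) ∧ c = cr q ∧
    ((x = K ∧ q = true) ∨ u = cr (hh K x q) ∨
      ∃ (c0 : Fin L) (i : Fin (2 * b)), c0.val = 0 ∧ i ∈ w (gg K x q) ∧ u = tp c0 i))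

variable {K : ℕ} {w : ℕ → Finset (Fin (2 * b))}

theorem mem_XX_cr {t : ℕ} {q : Bool} :
    (cr q : VV L b) ∈ XX L b K w t ↔ q = Cy K (L + b) t := Iff.rfl

theorem mem_XX_tp {t : ℕ} {c : Fin L} {i : Fin (2 * b)} :
    (tp c i : VV L b) ∈ XX L b K w t ↔ i ∈ w (It K (L + b) (t + (L + b - 1 - c.val))) := Iff.rfl

theorem mem_XX_pp {t : ℕ} {r : Fin b} {P : Finset (Fin (2 * b))} :
    (pp r P : VV L b) ∈ XX L b K w t ↔
      P.Nonempty ∧ P ⊆ w (It K (L + b) (t + (b - 1 - r.val))) ∧ P.card ≤ r.val + 1 := Iff.rfl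

theorem none_notMem_XX {t : ℕ} : (none : VV L b) ∉ XX L b K w t := fun h => h

/-- the steps -/
theorem FF_XX (hL : 1 ≤ L) (hb : 1 ≤ b) (hK : 1 ≤ K) (hw : ∀ x, x ≤ K → (w x).card = b)
    (hinj : ∀ x y, x ≤ K → y ≤ K → w x = w y → x = y) (s t : ℕ)
    (ht : ¬ (It K (L + b) t = K ∧ Cy K (L + b) t = true)) :
    FF (rl L b K w s) (XX L b K w t) = XX L b K w (t + 1) := by
  have hM : 1 ≤ L + b := by omega
  have hIt := It_add hK hM t
  have hCy := Cy_succ hK hM t
  have hle := It_le (M := L + b) hK t
  ext u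
  constructor
  · rintro ⟨a, ha, c, hc, h⟩
    rcases h with ⟨h1, -⟩ | ⟨c1, c2, i, h1, h2, h3⟩ | ⟨c1, r, i, h1, h2, h3, h4⟩ |
      ⟨r1, r2, P1, P2, h1, h2, h3, h4, h5⟩ | ⟨r, x, q, h1, h2, h3, h4, h5⟩
    · subst h1
      exact absurd ha none_notMem_XX
    · subst h2 h3
      rw [mem_XX_tp] at ha ⊢
      have e : t + 1 + (L + b - 1 - c2.val) = t + (L + b - 1 - c1.val) := by
        have := c2.2
        omega
      rw [e]
      exact ha
    · subst h3 h4
      rw [mem_XX_tp] at ha
      rw [mem_XX_pp]
      have e : t + 1 + (b - 1 - r.val) = t + (L + b - 1 - c1.val) := by omega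
      rw [e]
      refine ⟨Finset.singleton_nonempty i, Finset.singleton_subset_iff.2 ha, ?_⟩
      rw [Finset.card_singleton]
      omega
    · subst h3 h4 h5
      rw [mem_XX_pp] at ha hc ⊢
      have e : t + 1 + (b - 1 - r2.val) = t + (b - 1 - r1.val) := by
        have := r2.2
        omega
      rw [e]
      exact ⟨ha.1.mono Finset.subset_union_left, Finset.union_subset ha.2.1 hc.2.1, h2⟩
    · subst h3 h4
      rw [mem_XX_pp] at ha
      rw [mem_XX_cr] at hc
      have e : t + (b - 1 - r.val) = t := by omega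
      rw [e] at ha
      have e1 : w x = w (It K (L + b) t) :=
        Finset.eq_of_subset_of_card_le ha.2.1 (by rw [hw x h2, hw _ hle])
      have e2 := hinj x _ h2 hle e1
      subst e2 hc
      rcases h5 with h5 | h5 | ⟨c0, i, h6, h7, h8⟩
      · exact absurd h5 ht
      · subst h5
        rw [mem_XX_cr, hCy]
      · subst h8
        rw [mem_XX_tp]
        have e : t + 1 + (L + b - 1 - c0.val) = t + (L + b) := by omega
        rw [e, hIt]
        exact h7
  · intro hu
    have hlast : (pp ⟨b - 1, by omega⟩ (w (It K (L + b) t)) : VV L b) ∈ XX L b K w t := by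
      rw [mem_XX_pp]
      refine ⟨?_, ?_, ?_⟩
      · rw [← Finset.card_pos, hw _ hle]
        exact hb
      · have e : t + (b - 1 - (b - 1)) = t := by omega
        show w (It K (L + b) t) ⊆ w (It K (L + b) (t + (b - 1 - (b - 1))))
        rw [e]
      · rw [hw _ hle]
        show b ≤ b - 1 + 1
        omega
    have hcr : (cr (Cy K (L + b) t) : VV L b) ∈ XX L b K w t := rfl
    rcases u with _ | q | ⟨c, i⟩ | ⟨r, P⟩
    · exact absurd hu none_notMem_XX
    · have hu' : q = Cy K (L + b) (t + 1) := hu
      refine ⟨_, hlast, _, hcr, ?_⟩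
      right; right; right; right
      refine ⟨⟨b - 1, by omega⟩, _, _, ?_, hle, rfl, rfl, ?_⟩
      · show b - 1 + 1 = b
        omega
      · right; left
        rw [hu', hCy]
    · have hu' : i ∈ w (It K (L + b) (t + 1 + (L + b - 1 - c.val))) := hu
      rcases Nat.eq_zero_or_pos c.val with h0 | h0
      · refine ⟨_, hlast, _, hcr, ?_⟩
        right; right; right; right
        refine ⟨⟨b - 1, by omega⟩, _, _, ?_, hle, rfl, rfl, ?_⟩
        · show b - 1 + 1 = b
          omega
        · right; right
          have e : t + 1 + (L + b - 1 - c.val) = t + (L + b) := by omega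
          rw [e, hIt] at hu'
          exact ⟨c, i, h0, hu', rfl⟩
      · have hc := c.2
        have ha : (tp ⟨c.val - 1, by omega⟩ i : VV L b) ∈ XX L b K w t := by
          rw [mem_XX_tp]
          have e : t + (L + b - 1 - (c.val - 1)) = t + 1 + (L + b - 1 - c.val) := by omega
          show i ∈ w (It K (L + b) (t + (L + b - 1 - (c.val - 1))))
          rw [e]
          exact hu'
        refine ⟨_, ha, _, ha, ?_⟩
        right; left
        refine ⟨_, c, i, ?_, rfl, rfl⟩
        show c.val = c.val - 1 + 1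
        omega
    · have hu' : P.Nonempty ∧ P ⊆ w (It K (L + b) (t + 1 + (b - 1 - r.val))) ∧
          P.card ≤ r.val + 1 := hu
      obtain ⟨h1, h2, h3⟩ := hu'
      have hr := r.2
      rcases Nat.eq_zero_or_pos r.val with h0 | h0
      · obtain ⟨i, hi⟩ := Finset.card_eq_one.1 (show P.card = 1 by
          have := Finset.card_pos.2 h1
          omega)
        subst hi
        have ha : (tp ⟨L - 1, by omega⟩ i : VV L b) ∈ XX L b K w t := by
          rw [mem_XX_tp]
          have e : t + (L + b - 1 - (L - 1)) = t + 1 + (b - 1 - r.val) := by omega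
          show i ∈ w (It K (L + b) (t + (L + b - 1 - (L - 1))))
          rw [e]
          exact Finset.singleton_subset_iff.1 h2
        refine ⟨_, ha, _, ha, ?_⟩
        right; right; left
        refine ⟨_, r, i, ?_, h0, rfl, rfl⟩
        show L - 1 + 1 = L
        omega
      · have e : t + 1 + (b - 1 - r.val) = t + (b - 1 - (r.val - 1)) := by omega
        rw [e] at h2
        obtain ⟨i, hi⟩ := h1
        rcases Nat.lt_or_ge 1 P.card with h4 | h4
        · have ha : (pp ⟨r.val - 1, by omega⟩ (P.erase i) : VV L b) ∈ XX L b K w t := by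
            rw [mem_XX_pp]
            refine ⟨?_, (Finset.erase_subset _ _).trans h2, ?_⟩
            · rw [← Finset.card_pos, Finset.card_erase_of_mem hi]
              omega
            · rw [Finset.card_erase_of_mem hi]
              show P.card - 1 ≤ r.val - 1 + 1
              omega
          have hc : (pp ⟨r.val - 1, by omega⟩ {i} : VV L b) ∈ XX L b K w t := by
            rw [mem_XX_pp]
            refine ⟨Finset.singleton_nonempty i,
              (Finset.singleton_subset_iff.2 hi).trans h2, ?_⟩
            rw [Finset.card_singleton]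
            omega
          refine ⟨_, ha, _, hc, ?_⟩
          right; right; right; left
          have hun : P.erase i ∪ {i} = P := by
            ext y
            rw [Finset.mem_union, Finset.mem_erase, Finset.mem_singleton]
            constructor
            · rintro (h | h)
              · exact h.2
              · rw [h]
                exact hi
            · intro h
              by_cases hy : y = i
              · exact Or.inr hy
              · exact Or.inl ⟨hy, h⟩
          refine ⟨_, r, _, _, ?_, ?_, rfl, rfl, ?_⟩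
          · show r.val = r.val - 1 + 1
            omega
          · rw [hun]
            exact h3
          · rw [hun]
        · have ha : (pp ⟨r.val - 1, by omega⟩ P : VV L b) ∈ XX L b K w t := by
            rw [mem_XX_pp]
            refine ⟨⟨i, hi⟩, h2, ?_⟩
            show P.card ≤ r.val - 1 + 1
            omega
          refine ⟨_, ha, _, ha, ?_⟩
          right; right; right; left
          refine ⟨_, r, _, _, ?_, ?_, rfl, rfl, ?_⟩
          · show r.val = r.val - 1 + 1
            omega
          · rw [Finset.union_self]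
            exact h3
          · rw [Finset.union_self]

/-- the last step -/
theorem FF_XX_last (hb : 1 ≤ b) (hw : ∀ x, x ≤ K → (w x).card = b)
    (s t : ℕ) (ht : It K (L + b) t = K ∧ Cy K (L + b) t = true) :
    FF (rl L b K w s) (XX L b K w t) = Set.univ := by
  apply Set.eq_univ_of_forall
  intro u
  have hlast : (pp ⟨b - 1, by omega⟩ (w K) : VV L b) ∈ XX L b K w t := by
    rw [mem_XX_pp]
    refine ⟨?_, ?_, ?_⟩
    · rw [← Finset.card_pos, hw _ le_rfl]
      exact hb
    · have e : t + (b - 1 - (b - 1)) = t := by omega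
      show w K ⊆ w (It K (L + b) (t + (b - 1 - (b - 1))))
      rw [e, ht.1]
    · rw [hw _ le_rfl]
      show b ≤ b - 1 + 1
      omega
  have hcr : (cr true : VV L b) ∈ XX L b K w t := ht.2.symm
  refine ⟨_, hlast, _, hcr, ?_⟩
  right; right; right; right
  refine ⟨⟨b - 1, by omega⟩, K, true, ?_, le_rfl, rfl, rfl, Or.inl ⟨rfl, rfl⟩⟩
  show b - 1 + 1 = b
  omega

theorem FF_start (s : ℕ) : FF (rl L b K w s) {none} = XX L b K w s := by
  ext u
  constructor
  · rintro ⟨a, ha, c, hc, h⟩
    rw [Set.mem_singleton_iff] at ha hc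
    subst ha hc
    rcases h with ⟨-, h⟩ | ⟨c1, c2, i, h1, h2, h3⟩ | ⟨c1, r, i, h1, h2, h3, h4⟩ |
      ⟨r1, r2, P1, P2, h1, h2, h3, h4, h5⟩ | ⟨r, x, q, h1, h2, h3, h4, h5⟩
    · exact h
    · exact absurd h2 (by simp)
    · exact absurd h3 (by simp)
    · exact absurd h3 (by simp)
    · exact absurd h3 (by simp)
  · intro h
    exact ⟨none, rfl, none, rfl, Or.inl ⟨rfl, h⟩⟩

theorem FF_carry (s : ℕ) : FF (rl L b K w s) {cr false} = ∅ := by
  ext u
  simp only [Set.mem_empty_iff_false, iff_false]
  rintro ⟨a, ha, c, hc, h⟩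
  rw [Set.mem_singleton_iff] at ha hc
  subst ha hc
  rcases h with ⟨h, -⟩ | ⟨c1, c2, i, h1, h2, h3⟩ | ⟨c1, r, i, h1, h2, h3, h4⟩ |
    ⟨r1, r2, P1, P2, h1, h2, h3, h4, h5⟩ | ⟨r, x, q, h1, h2, h3, h4, h5⟩
  · exact absurd h (by simp)
  · exact absurd h2 (by simp)
  · exact absurd h3 (by simp)
  · exact absurd h3 (by simp)
  · exact absurd h3 (by simp)

/-- the machine: all numbers up to `M K ^ (M - 1) + 1`, `M = L + b` -/
theorem mem_R_machine (hL : 1 ≤ L) (hb : 1 ≤ b) (hK : 1 ≤ K) (hKb : K + 1 ≤ (2 * b).choose b)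
    {m n : ℕ} (hm : 3 ≤ m) (hn : 2 * b * L + b * 4 ^ b + 3 ≤ n) (j : Fin n) {k : ℕ}
    (hk2 : 2 ≤ k) (hk : k ≤ (L + b) * K ^ (L + b - 1) + 1) : k ∈ R m n j := by
  classical
  -- the code words
  set F := Finset.powersetCard b (Finset.univ : Finset (Fin (2 * b))) with hF
  have hcard : F.card = (2 * b).choose b := by
    rw [hF, Finset.card_powersetCard, Finset.card_univ, Fintype.card_fin]
  let e := F.equivFin
  let w : ℕ → Finset (Fin (2 * b)) := fun x =>
    if h : x < F.card then (e.symm ⟨x, h⟩ : Finset (Fin (2 * b))) else ∅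
  have hw : ∀ x, x ≤ K → (w x).card = b := by
    intro x hx
    have h : x < F.card := by omega
    simp only [w, h, dif_pos]
    exact (Finset.mem_powersetCard.1 (e.symm ⟨x, h⟩).2).2
  have hinj : ∀ x y, x ≤ K → y ≤ K → w x = w y → x = y := by
    intro x y hx hy h
    have h1 : x < F.card := by omega
    have h2 : y < F.card := by omega
    simp only [w, h1, h2, dif_pos] at h
    have h3 := e.symm.injective (Subtype.ext h)
    simpa using h3
  have hM : 1 ≤ L + b := by omega
  set T := (L + b) * K ^ (L + b - 1) - 1 with hT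
  have hTpos : 1 ≤ (L + b) * K ^ (L + b - 1) := Nat.mul_pos hM (Nat.pow_pos hK)
  obtain ⟨s, hs⟩ : ∃ s, s + k = T + 2 := ⟨T + 2 - k, by omega⟩
  have hcardV : Fintype.card (VV L b) = 2 * b * L + b * 4 ^ b + 3 := by
    simp only [Fintype.card_option, Fintype.card_sum, Fintype.card_bool, Fintype.card_prod,
      Fintype.card_fin, Fintype.card_finset]
    rw [pow_mul]
    norm_num
    ring
  have hmain := mem_R_rules (rl L b K w s) none (cr false) (fun t => XX L b K w (s + t)) (T - s)
    (FF_start s) ?_ ?_ ?_ (FF_carry s) hm hcardV (m := m) ⟨0, by omega⟩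
  · have e1 : T - s + 2 = k := by omega
    rw [e1] at hmain
    exact R_mono_dim (by omega) hn j _ hmain
  · intro t ht
    have h1 := no_overflow hK hM (t := s + t) (by omega)
    exact FF_XX hL hb hK hw hinj s (s + t) h1
  · intro t _ h
    apply none_notMem_XX (L := L) (b := b) (K := K) (w := w) (t := s + t)
    have h' : XX L b K w (s + t) = Set.univ := h
    rw [h']
    trivial
  · have h1 := overflow hK hM (t := s + (T - s)) (by omega)
    exact FF_XX_last hb hw s (s + (T - s)) h1

end machine

end Pool.Agent.H40.Gaps
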